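import Pool.Agent.MWH.StmtsC

/-!
# Block MWH, row UX2

`→`: PSL with `g j = 0` for `j ≤ p`, `1` for `p < j`; `←`: PIN with `f = p, i`.
-/

namespace Pool.Agent.MWH.H43

open Pool.Agent.Helper14_MV Pool.Agent.Helper2_MV Pool.Agent.MVO Pool.Agent.MWL Pool.Agent.MWS
open Pool.Agent.MWH

/-- **UX2** -/
theorem ux2 (hPsl : PslStmt) (hPin : PinStmt) : Ux2Stmt := by
  intro β θ hβ hθ k a b i p hv hl hb2 hbl hbr
  have hpi : p < i := hl.uv
  have hik : i ≤ k := hl.vk
  have hc : Vd 1 (vc [1, 1]) (vc [0, 2]) 1 := by
    refine ⟨le_rfl, by decide, by decide, ?_, by decide, by decide⟩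
    intro j hj hj1
    interval_cases j
    · right; rfl
    · exact absurd rfl hj1
  have hvs : ∀ s : Stt, Vs (vc [1, 1]) (vc [0, 2]) 1 s := fun s _ => Or.inr (by decide)
  constructor
  · intro h
    let g : ℕ → ℕ := fun j => if j ≤ p then 0 else 1
    have hgi : g i = 1 := by
      show (if i ≤ p then 0 else 1) = 1
      rw [if_neg (by omega)]
    have g0 : ∀ j, g j = 0 ↔ j ≤ p := by
      intro j
      show (if j ≤ p then 0 else 1) = 0 ↔ _
      by_cases hj : j ≤ p
      · simp [hj]
      · simp [hj]
    have g1 : ∀ j, g j = 1 ↔ p < j := by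
      intro j
      show (if j ≤ p then 0 else 1) = 1 ↔ _
      by_cases hj : j ≤ p
      · simp [hj]
      · simp [hj]; omega
    have hgm : BMap k 1 g := by
      constructor
      · intro x y hxy _
        show (if x ≤ p then 0 else 1) ≤ (if y ≤ p then 0 else 1)
        split_ifs <;> omega
      · intro x _
        show (if x ≤ p then 0 else 1) ≤ 1
        split_ifs <;> omega
    have hda : Dm k 1 g a (vc [1, 1]) := by
      intro j' hj'
      interval_cases j'
      · right; left
        refine ⟨rfl, p, by rw [hl.au], ?_⟩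
        intro j hj hgj hjp
        have := (g0 j).1 hgj
        exact hl.az j hj hjp (by omega)
      · right; left
        refine ⟨rfl, i, by rw [hl.av], ?_⟩
        intro j hj hgj hji
        have := (g1 j).1 hgj
        exact hl.az j hj (by omega) hji
    have hbp : b p = 0 := by
      rcases hv.un p (by omega) (by omega) with h0 | h0
      · rw [hl.au] at h0; exact absurd h0 (by omega)
      · exact h0
    have hdb : Dm k 1 g b (vc [0, 2]) := by
      intro j' hj'
      interval_cases j'
      · right; right
        intro j hj hgj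
        have hjp := (g0 j).1 hgj
        rcases Nat.lt_or_eq_of_le hjp with h1 | h1
        · exact hbl j h1
        · rw [h1]; exact hbp
      · left; decide
    have key := hPsl β θ hβ hθ k 1 g a b (vc [1, 1]) (vc [0, 2]) i hgm hv (by rw [hgi]; exact hc)
      hda hdb ?_ ?_ hb2 ?_ h
    · rw [hgi] at key; exact key
    · intro j hj hgj hji
      rw [hgi] at hgj
      have hjp := (g1 j).1 hgj
      refine ⟨hl.az j hj (by omega) hji, ?_⟩
      rcases Nat.lt_or_gt_of_ne hji with h1 | h1
      · exact Or.inl h1
      · exact Or.inr (hbr j h1 hj)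
    · rw [hgi, hl.av]
      exact ⟨fun _ => rfl, fun _ => rfl⟩
    · rw [hgi]; decide
  · intro h
    let f : ℕ → ℕ := fun j => if j = 0 then p else i
    have hf1 : f 1 = i := rfl
    have hf0 : f 0 = p := rfl
    have key := hPin β θ hβ hθ 1 k f (vc [1, 1]) (vc [0, 2]) a b 1 ?_ (by rw [hf1]; exact hik) hc
      (by rw [hf1]; exact hv) ?_ ?_ ?_ Stt.yx Stt.ov (hvs _) (hvs _) h
    · rw [hf1] at key; exact key
    · intro j hj
      have : j = 0 := by omega
      subst this
      exact hpi
    · intro j hj
      interval_cases j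
      · rw [hf0]
        refine ⟨fun _ => ?_, fun h2 => absurd h2 (by decide), fun h2 => absurd rfl h2,
          fun h2 => absurd h2 (by decide)⟩
        rw [hl.au]; exact one_ne_zero
      · rw [hf1]
        refine ⟨fun _ => ?_, fun h2 => absurd h2 (by decide), fun _ => ?_, fun _ => hb2⟩
        · rw [hl.av]; exact one_ne_zero
        · omega
    · rw [hf1, hl.av]
      exact ⟨fun _ => rfl, fun _ => rfl⟩
    · rw [hf1]
      constructor
      · intro h2; exact absurd h2 (by decide)
      · intro h2; omega

end Pool.Agent.MWH.H43
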